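import Pool.Agent.Helper38.UN.St

/-!
# Project UN, module ANG: different rays of a vertex
-/

set_option autoImplicit false

noncomputable section

namespace Pool.Agent.Helper37.UN38

open Pool.Agent.Helper71.UN Pool.Agent.Helper38.UN
open Set Filter Topology Matrix
open scoped ContDiff ComplexConjugate

private theorem ang_ne {κ J : Type} {n : ℕ} {N : Nw κ J n} {S : Finset ℤ}
    {r₁ r₂ : ℝ} (h : NwOK N S r₁ r₂) {j j' : J} {b b' : Bool} (hsp : N.sp j b = N.sp j' b')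
    (hne : ¬ (j' = j ∧ b' = b)) :
    N.d j / (‖N.d j‖ : ℂ) ≠ N.d j' / (‖N.d j'‖ : ℂ) := by
  intro he
  have h1 : 0 < ‖N.d j‖ := norm_pos_iff.2 (h.d_ne j)
  have h2 : 0 < ‖N.d j'‖ := norm_pos_iff.2 (h.d_ne j')
  obtain ⟨s, hs0, hs1, hs2⟩ : ∃ s : ℝ, 0 < s ∧ s < ‖N.d j‖ ∧ s < ‖N.d j'‖ := by
    refine ⟨min ‖N.d j‖ ‖N.d j'‖ / 2, by positivity, ?_, ?_⟩
    · have := min_le_left ‖N.d j‖ ‖N.d j'‖
      have h3 : 0 < min ‖N.d j‖ ‖N.d j'‖ := lt_min h1 h2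
      linarith
    · have := min_le_right ‖N.d j‖ ‖N.d j'‖
      have h3 : 0 < min ‖N.d j‖ ‖N.d j'‖ := lt_min h1 h2
      linarith
  have hpt : N.sp j b + ((s / ‖N.d j‖ : ℝ) : ℂ) * N.d j =
      N.sp j' b' + ((s / ‖N.d j'‖ : ℝ) : ℂ) * N.d j' := by
    rw [hsp]
    congr 1
    have e1 : ((s / ‖N.d j‖ : ℝ) : ℂ) * N.d j = (s : ℂ) * (N.d j / (‖N.d j‖ : ℂ)) := by
      rw [Complex.ofReal_div]; ring
    have e2 : ((s / ‖N.d j'‖ : ℝ) : ℂ) * N.d j' = (s : ℂ) * (N.d j' / (‖N.d j'‖ : ℂ)) := by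
      rw [Complex.ofReal_div]; ring
    rw [e1, e2, he]
  have hd := h.disj j b j' b' (s / ‖N.d j‖) (s / ‖N.d j'‖) (div_pos hs0 h1)
    ((div_lt_one h1).2 hs1) (div_pos hs0 h2) ((div_lt_one h2).2 hs2) hpt
  obtain ⟨hb, hj | hj⟩ := hd
  · exact hne ⟨hj, hb⟩
  · have h3 := h.opsp j b
    rw [hj, hb, h3] at hsp
    have h4 : N.d j = 0 := by
      have : N.sp j b + 0 = N.sp j b + N.d j := by rw [add_zero]; exact hsp
      exact (add_left_cancel this).symm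
    exact h.d_ne j h4

private theorem ang_est {d d' z : ℂ} (hd : d ≠ 0) (hd' : d' ≠ 0) {ε : ℝ}
    (h1 : 0 < tt d z) (h2 : |hh d z| < 2 * ε) (h3 : 0 < tt d' z) (h4 : |hh d' z| ≤ ε) :
    ‖z‖ * ‖d / (‖d‖ : ℂ) - d' / (‖d'‖ : ℂ)‖ < 6 * ε := by
  set e : ℂ := d / (‖d‖ : ℂ) with he
  set e' : ℂ := d' / (‖d'‖ : ℂ) with he'
  have n1 : ‖e‖ = 1 := norm_unit hd
  have n2 : ‖e'‖ = 1 := norm_unit hd'
  have f1 : ‖z - (tt d z : ℂ) * e‖ = |hh d z| := by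
    rw [← norm_sub_foot hd z, he]
    congr 2
    rw [Complex.ofReal_div]; ring
  have f2 : ‖z - (tt d' z : ℂ) * e'‖ = |hh d' z| := by
    rw [← norm_sub_foot hd' z, he']
    congr 2
    rw [Complex.ofReal_div]; ring
  have g1 := norm_le_add hd z
  rw [abs_of_pos h1] at g1
  have g2 := norm_le_add hd' z
  rw [abs_of_pos h3] at g2
  have g3 := tt_le hd z
  have g4 := tt_le hd' z
  have k1 : ‖((‖z‖ - tt d z : ℝ) : ℂ) * e‖ = ‖z‖ - tt d z := by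
    rw [norm_mul, n1, mul_one, Complex.norm_real, Real.norm_eq_abs, abs_of_nonneg (by linarith)]
  have k2 : ‖((‖z‖ - tt d' z : ℝ) : ℂ) * e'‖ = ‖z‖ - tt d' z := by
    rw [norm_mul, n2, mul_one, Complex.norm_real, Real.norm_eq_abs, abs_of_nonneg (by linarith)]
  have key : (‖z‖ : ℂ) * (e - e') = (((‖z‖ - tt d z : ℝ) : ℂ) * e - (z - (tt d z : ℂ) * e)) +
      ((z - (tt d' z : ℂ) * e') - ((‖z‖ - tt d' z : ℝ) : ℂ) * e') := by
    push_cast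
    ring
  have hn : ‖z‖ * ‖e - e'‖ = ‖(‖z‖ : ℂ) * (e - e')‖ := by
    rw [norm_mul, Complex.norm_real, norm_norm]
  rw [hn, key]
  have t1 := norm_add_le (((‖z‖ - tt d z : ℝ) : ℂ) * e - (z - (tt d z : ℂ) * e))
    ((z - (tt d' z : ℂ) * e') - ((‖z‖ - tt d' z : ℝ) : ℂ) * e')
  have t2 := norm_sub_le (((‖z‖ - tt d z : ℝ) : ℂ) * e) (z - (tt d z : ℂ) * e)
  have t3 := norm_sub_le (z - (tt d' z : ℂ) * e') (((‖z‖ - tt d' z : ℝ) : ℂ) * e')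
  rw [k1, f1] at t2
  rw [k2, f2] at t3
  linarith

/-- **ANG** -/
theorem hANG : StANG := by
  intro κ J _ _ n N S r₁ r₂ r h hr
  rw [Filter.eventually_all]; intro j
  rw [Filter.eventually_all]; intro b
  rw [Filter.eventually_all]; intro j'
  rw [Filter.eventually_all]; intro b'
  by_cases hsp : N.sp j b = N.sp j' b'
  swap
  · exact Filter.Eventually.of_forall fun ε z hz => absurd hz hsp
  by_cases hne : j' = j ∧ b' = b
  · exact Filter.Eventually.of_forall fun ε z _ _ _ _ _ => hne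
  have he := ang_ne h hsp hne
  have hpos : 0 < ‖N.d j / (‖N.d j‖ : ℂ) - N.d j' / (‖N.d j'‖ : ℂ)‖ :=
    norm_pos_iff.2 (sub_ne_zero.2 he)
  have hb0 : 0 < r * ‖N.d j / (‖N.d j‖ : ℂ) - N.d j' / (‖N.d j'‖ : ℂ)‖ / 12 := by positivity
  have hev : ∀ᶠ ε in 𝓝[>] (0 : ℝ),
      ε < r * ‖N.d j / (‖N.d j‖ : ℂ) - N.d j' / (‖N.d j'‖ : ℂ)‖ / 12 :=
    nhdsWithin_le_nhds (Iio_mem_nhds hb0)
  filter_upwards [hev] with ε hε z _ z1 z2 z3 z4
  exfalso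
  have h1 := ang_est (h.d_ne j) (h.d_ne j') (by linarith) z2 z3 z4
  have h2 := tt_le (h.d_ne j) z
  have h3 : r / 2 * ‖N.d j / (‖N.d j‖ : ℂ) - N.d j' / (‖N.d j'‖ : ℂ)‖ ≤
      ‖z‖ * ‖N.d j / (‖N.d j‖ : ℂ) - N.d j' / (‖N.d j'‖ : ℂ)‖ :=
    mul_le_mul_of_nonneg_right (by linarith) hpos.le
  linarith

end Pool.Agent.Helper37.UN38
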