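import Pool.Agent.Helper38.UN.St

/-!
# Project UN, module CHD: discs are charts
-/

set_option autoImplicit false

noncomputable section

namespace Pool.Agent.Helper37.UN38

open Pool.Agent.Helper71.UN Pool.Agent.Helper38.UN
open Set Filter Topology Matrix
open scoped ContDiff ComplexConjugate

/-- **CHD** -/
theorem hCHD : StCHD := by
  intro κ J _ _ n N Γ S r₁ r₂ M R₀ r ε h hV c
  have v := hV c
  refine ⟨?_, ?_, ?_, ?_, ?_, ?_, ?_, ?_⟩
  · exact Metric.isOpen_ball
  · intro a a' haa
    exact (h.inj c a c a' haa).2
  · intro l a b z _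
    have h1 : ContDiff ℝ ∞ (fun z : ℂ => z / (ε : ℂ)) := contDiff_id.div_const _
    exact ((v.smooth l a b).comp h1).contDiffAt
  · intro l z _
    exact v.symm _ l
  · intro l z _
    exact v.idem _ l
  · intro l hl z _
    exact v.zero _ l hl
  · intro z _
    exact v.sum _
  · intro l z _ a b hab
    exact v.loc _ l a b hab

end Pool.Agent.Helper37.UN38
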