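import Pool.Agent.Helper56.UN.St

/-!
# Project UN, module MD (the moduli)
-/

set_option autoImplicit false

namespace Pool.Agent.Helper37.UN

open Pool.Agent.Helper56.UN Pool.Agent.Helper71.UN
open Pool.Agent.Helper56.FM (Gq)

/-- **MD** -/
theorem m_MD : StMD := by
  intro β p q r t h
  have ht : t ≠ 0 := by
    intro h0
    have h1 := h.real
    rw [h0] at h1
    have h2 : (r : ℝ) = 0 := by
      have : (0 : ℝ) ^ 3 + (p : ℝ) * 0 ^ 2 + (q : ℝ) * 0 + (r : ℝ) = (r : ℝ) := by ring
      rw [this] at h1
      exact h1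
    have h3 : r = 0 := by exact_mod_cast h2
    apply h.irr 0
    rw [h3]; ring
  refine ⟨ht, ?_⟩
  intro he
  have h1 : Complex.normSq β = t ^ 2 := by
    rw [Complex.normSq_eq_norm_sq, he, sq_abs]
  have h2 : (p : ℝ) * t + q = 0 := by
    have := h.ns
    rw [h1] at this
    linarith
  by_cases hp : p = 0
  · have hq : q = 0 := by
      rw [hp] at h2
      have : (q : ℝ) = 0 := by
        simpa using h2
      exact_mod_cast this
    apply h.nrat 3 (by norm_num) (-r)
    have h3 := h.cub
    rw [hp, hq] at h3
    push_cast at h3 ⊢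
    linear_combination h3
  · have hpR : (p : ℝ) ≠ 0 := by exact_mod_cast hp
    have ht2 : t = ((-q / p : ℚ) : ℝ) := by
      push_cast
      field_simp
      linarith
    have h3 := h.real
    rw [ht2] at h3
    exact h.irr (-q / p) (by exact_mod_cast h3)

end Pool.Agent.Helper37.UN
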